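import Pool.Agent.MP_1246c0_nt.H12.SpecA

/-! Classes of order two. -/

namespace Pool.Agent.MP_1246c0_nt.H12

open NumberField IsDedekindDomain Pool.Agent.MP_db5b97_nt.H85

namespace CAP

theorem rel_le {A : Type} [AddCommGroup A] {H K K' : AddSubgroup A} {b : ℕ} (h : K ≤ K')
    (h' : H.relIndex K' ≠ 0 ∧ H.relIndex K' ≤ b) : H.relIndex K ≠ 0 ∧ H.relIndex K ≤ b :=
  ⟨fun e => h'.1 (AddSubgroup.relIndex_eq_zero_of_le_right h e),
    (AddSubgroup.relIndex_le_of_le_right h h'.1).trans h'.2⟩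

theorem idx {Γ A U : Type} [AddCommGroup Γ] [AddCommGroup A] [AddCommGroup U] (f : Γ →+ A)
    (s : Γ →+ U) {H : AddSubgroup A} {N W : AddSubgroup U} {b : ℕ} (h1 : s.range ≤ W)
    (h2 : ∀ p, s p ∈ N → f p ∈ H) (h' : N.relIndex W ≠ 0 ∧ N.relIndex W ≤ b) :
    H.relIndex f.range ≠ 0 ∧ H.relIndex f.range ≤ b := by
  obtain ⟨h3, h4⟩ := rel_le h1 h'
  rw [← AddSubgroup.index_comap] at h3 h4 ⊢
  have h5 : (H.comap f).index ∣ (N.comap s).index := AddSubgroup.index_dvd_of_le h2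
  exact ⟨ne_zero_of_dvd_ne_zero h3 h5, (Nat.le_of_dvd (Nat.pos_of_ne_zero h3) h5).trans h4⟩

theorem fx_comm {A G : Type} [Group G] [AddCommGroup A] [DistribMulAction G A] {σ γ : G}
    (h : σ * γ = γ * σ) (n : ℕ) {x : A} (hx : γ ^ n • x = x) : γ ^ n • σ • x = σ • x := by
  rw [← mul_smul, ← (Commute.pow_right h n).eq, mul_smul, hx]

variable {L : Type} [Field L] [NumberField L] {d M : ℕ} {s θ : L} {σ γ : L ≃ₐ[ℚ] L}

theorem dv_mem {U : AddSubgroup (Un L)} {x : Un L} (hx : x ∈ U) : dv L 2 x ∈ Od U :=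
  ⟨1, odd_one, x, hx, one_smul _ _⟩

theorem key (hA : SAMB) (T : Tw L d M s θ σ γ) {n : ℕ} (hn : n ≤ M)
    {D : Dv L 2} {x ε : Un L} (hD : D ∈ Iv γ n) (hx : γ ^ 2 ^ n • x = x)
    (hε : γ ^ 2 ^ n • ε = ε) (e1 : D - σ • D = dv L 2 x) (e2 : dv L 2 ε = 0)
    (e3 : x + σ • x = ε + σ • ε) : D ∈ Rm L d ⊓ Iv γ n ⊔ Oc γ n := by
  obtain ⟨δ, h3, h4⟩ := hA.h90 L d M n s θ σ γ T (x - ε) (by rw [smul_sub, hx, hε])
    (by rw [smul_sub, sub_add_sub_comm, e3, sub_self])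
  have h5 : dv L 2 δ ∈ Oc γ n := dv_mem h3
  have h6 := congrArg (dv L 2) h4
  rw [map_sub, map_sub, e2, sub_zero, ← e1, hA.eqv] at h6
  obtain ⟨c, hc, -, h7⟩ := (hA.amb L d M n s θ σ γ T hn (D - dv L 2 δ)
    (sub_mem hD ((hA.sub L σ γ n).2.1 h5))
    (by rw [smul_sub, sub_eq_sub_iff_sub_eq_sub, ← neg_sub D, h6, neg_sub])).2
  rw [show D = c + (D - dv L 2 δ - c + dv L 2 δ) by abel]
  exact AddSubgroup.add_mem_sup hc (add_mem ((hA.sub L σ γ n).1 h7) h5)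

theorem start (hP : STP) (hA : SAMB) (T : Tw L d M s θ σ γ) (h1 : σ * γ = γ * σ) (h2 : σ * σ = 1)
    {m : ℕ} (hm : m ≤ M) {D : Dv L 2} (hD : D ∈ Iv γ m) (h : 2 • D ∈ Oc γ m) :
    ∃ (j : ℕ) (x : Un L), γ ^ 2 ^ m • x = x ∧
      (2 * j + 1) • D - σ • (2 * j + 1) • D = dv L 2 x := by
  have h3 : D + σ • D ∈ Oc γ m := by
    refine (hA.sub L σ γ m).1 ((hA.amb L d M m s θ σ γ T hm _ (add_mem hD (fx_comm h1 _ hD))
      (by rw [smul_add, ← mul_smul, h2, one_smul, add_comm])).1 fun w hw => ?_)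
    rw [Finsupp.add_apply, Finsupp.comapSMul_apply,
      inv_smul_eq_iff.2 (hP.ram L d M s θ σ γ T w hw).1.symm]
    exact ⟨_, rfl⟩
  obtain ⟨k, ⟨j, rfl⟩, x, hx, e⟩ := sub_mem h h3
  refine ⟨j, x, hx, ?_⟩
  rw [← e, smul_comm σ, ← smul_sub, two_nsmul, add_sub_add_left_eq_sub]

theorem unit (hA : SAMB) (h1 : σ * γ = γ * σ) (h2 : σ * σ = 1) {n : ℕ} {D : Dv L 2} {x : Un L}
    (hx : γ ^ n • x = x) (e : D - σ • D = dv L 2 x) :
    dv L 2 (x + σ • x) = 0 ∧ σ • (x + σ • x) = x + σ • x ∧ γ ^ n • (x + σ • x) = x + σ • x := by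
  refine ⟨?_, by rw [smul_add, ← mul_smul, h2, one_smul, add_comm],
    by rw [smul_add, hx, fx_comm h1 n hx]⟩
  rw [map_add, hA.eqv, ← e, smul_sub, ← mul_smul, h2, one_smul, sub_add_sub_cancel, sub_self]

/-- pairs of a divisor and a generator of its difference with the conjugate -/
def Gm (σ γ : L ≃ₐ[ℚ] L) (m : ℕ) : AddSubgroup (Dv L 2 × Un L) where
  carrier := {p | p.1 ∈ Iv γ m ∧ γ ^ 2 ^ m • p.2 = p.2 ∧ p.1 - σ • p.1 = dv L 2 p.2}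
  zero_mem' := ⟨zero_mem _, smul_zero _, by simp⟩
  add_mem' := by
    rintro p q ⟨a1, a2, a3⟩ ⟨b1, b2, b3⟩
    refine ⟨add_mem a1 b1, by rw [Prod.snd_add, smul_add, a2, b2], ?_⟩
    rw [Prod.snd_add, Prod.fst_add, map_add, ← a3, ← b3, smul_add]
    abel
  neg_mem' := by
    rintro p ⟨a1, a2, a3⟩
    refine ⟨neg_mem a1, by rw [Prod.snd_neg, smul_neg, a2], ?_⟩
    rw [Prod.snd_neg, Prod.fst_neg, map_neg, ← a3, smul_neg]
    abel

theorem nm_two (x : Un L) : Nm σ 2 x = x + σ • x := by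
  rw [Nm_apply, Finset.sum_range_succ, Finset.sum_range_one, pow_zero, one_smul, pow_one]

theorem odd_sub {A : Type} [AddCommGroup A] (j : ℕ) (D : A) : D = (2 * j + 1) • D - j • 2 • D := by
  rw [add_nsmul, one_nsmul, mul_nsmul]
  abel

end CAP

theorem rowCAP : OfCAP := by
  intro hW hP hA hH
  constructor
  · intro L _ _ d M m s θ σ γ T hm ht D hD h
    obtain ⟨-, -, h2, h1, -⟩ := hW.gal L d M s θ σ γ T
    obtain ⟨j, x, hx, e⟩ := CAP.start hP hA T h1 h2 (by omega) hD h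
    obtain ⟨u1, u2, u3⟩ := CAP.unit hA h1 h2 hx e
    obtain ⟨ε, e1, e2, e3⟩ := hH.up L d M m s θ σ γ T hm ht _ u1 u2 u3
    have hs := hA.sub L σ γ m
    have h3 := CAP.key hA T hm (hs.2.2.2.1 (nsmul_mem hD _))
      (by rw [pow_succ, pow_mul, sq, mul_smul, hx, hx]) e2 e e1 e3
    have h4 : Rm L d ⊓ Iv γ (m + 1) ⊔ Oc γ (m + 1) ≤ Rm L d ⊔ Oc γ (m + 1) :=
      sup_le_sup_right inf_le_left _
    rw [CAP.odd_sub j D]
    exact sub_mem (h4 h3)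
      (AddSubgroup.mem_sup_right (nsmul_mem (hs.2.2.1 h) _))
  · intro L _ _ d M m s θ σ γ T hm
    obtain ⟨-, -, h2, h1, -⟩ := hW.gal L d M s θ σ γ T
    have h3 := CAP.idx ((AddMonoidHom.fst _ _).comp (CAP.Gm σ γ m).subtype)
      ((Nm σ 2).comp ((AddMonoidHom.snd _ _).comp (CAP.Gm σ γ m).subtype))
      (H := Rm L d ⊓ Iv γ m ⊔ Oc γ m) ?_ ?_ (hH.idx L d M m s θ σ γ T hm)
    · rw [← AddSubgroup.relIndex_sup_right] at h3
      have h4 := CAP.rel_le (K := Iv γ m ⊓ (Oc γ m).comap (nsmulAddMonoidHom 2)) ?_ h3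
      · have h5 := hA.dm L d M m s θ σ γ T hm
        rw [← AddSubgroup.relIndex_sup_right] at h5
        have h6 := CAP.rel_le (K := (Rm L d ⊓ Iv γ m ⊔ Oc γ m) ⊓
          (Iv γ m ⊓ (Oc γ m).comap (nsmulAddMonoidHom 2))) inf_le_left h5
        have h7 := AddSubgroup.relIndex_inf_mul_relIndex (Oc γ m) (Rm L d ⊓ Iv γ m ⊔ Oc γ m)
          (Iv γ m ⊓ (Oc γ m).comap (nsmulAddMonoidHom 2))
        rw [inf_eq_left.2 (le_sup_right : Oc γ m ≤ _)] at h7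
        rw [← h7, show 2 * tt d + 1 = tt d + (tt d + 1) by omega, pow_add]
        exact ⟨mul_ne_zero h6.1 h4.1, Nat.mul_le_mul h6.2 h4.2⟩
      · rintro D ⟨hD, h'⟩
        have h : 2 • D ∈ Oc γ m := h'
        obtain ⟨j, x, hx, e⟩ := CAP.start hP hA T h1 h2 hm hD h
        have h5 : ((2 * j + 1) • D, x) ∈ CAP.Gm σ γ m := ⟨nsmul_mem hD _, hx, e⟩
        rw [CAP.odd_sub j D]
        exact sub_mem (AddSubgroup.mem_sup_left ⟨⟨_, h5⟩, rfl⟩)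
          (AddSubgroup.mem_sup_right (AddSubgroup.mem_sup_right (nsmul_mem h _)))
    · rintro _ ⟨⟨⟨D, x⟩, a1, a2, a3⟩, rfl⟩
      obtain ⟨u1, u2, u3⟩ := CAP.unit hA h1 h2 a2 a3
      show Nm σ 2 x ∈ _
      rw [CAP.nm_two]
      exact ⟨⟨u1, u3⟩, u2⟩
    · rintro ⟨⟨D, x⟩, a1, a2, a3⟩ ⟨ε, ⟨e1, e2⟩, e3⟩
      have e4 : Nm σ 2 ε = Nm σ 2 x := e3
      rw [CAP.nm_two, CAP.nm_two] at e4
      exact CAP.key hA T hm a1 a2 e2 a3 e1 e4.symm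

end Pool.Agent.MP_1246c0_nt.H12
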