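import Pool.Agent.MP_1246c0_nt.H12.SpecR

/-! Characters, quadratic functions, socles. -/

namespace Pool.Agent.MP_1246c0_nt.H12

open Finset

namespace QF

theorem f2 (a : F2) : a = 0 ∨ a = 1 := by revert a; decide

theorem sg_zero : sg 0 = 1 := if_pos rfl

theorem sg_one : sg 1 = -1 := if_neg one_ne_zero

theorem sg_add (a b : F2) : sg (a + b) = sg a * sg b := by
  have h : (1 + 1 : F2) = 0 := rfl
  rcases f2 a with rfl | rfl <;> rcases f2 b with rfl | rfl <;> simp [sg_zero, sg_one, h]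

theorem sg_le (a : F2) : sg a ≤ 1 := by
  rcases f2 a with rfl | rfl <;> simp [sg_zero, sg_one]

theorem lin {A : Type} [AddCommGroup A] [Fintype A] (Q : A → F2) (v : A)
    (h : ∀ x, Q (x + v) = Q x + 1) : ∑ x, sg (Q x) = 0 := by
  have h1 : ∑ x, sg (Q (x + v)) = ∑ x, sg (Q x) :=
    Equiv.sum_comp (Equiv.addRight v) fun x => sg (Q x)
  simp only [h, sg_add, sg_one, mul_neg, mul_one, sum_neg_distrib] at h1
  linarith

open Classical in
theorem chr {A : Type} [AddCommGroup A] [Fintype A] (φ : A →+ F2) :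
    ∑ x, sg (φ x) = if φ = 0 then (Fintype.card A : ℝ) else 0 := by
  split_ifs with h
  · simp [h, sg_zero]
  · obtain ⟨v, hv⟩ := DFunLike.ne_iff.1 h
    exact lin φ v fun x => by rw [map_add, (f2 (φ v)).resolve_left hv]

theorem qc (A C : Type) [Finite A] [AddCommGroup C] [Finite C] (Q : C →+ A → F2) (δ : ℝ)
    (hδ : 0 ≤ δ) (h : ∀ μ, μ ≠ 0 → |∑ᶠ x, sg (Q μ x)| ≤ δ * Nat.card A) :
    |(Nat.card {x // ∀ μ, Q μ x = 0} : ℝ) - Nat.card A / Nat.card C| ≤ δ * Nat.card A := by
  classical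
  have := Fintype.ofFinite A
  have := Fintype.ofFinite C
  simp only [finsum_eq_sum_of_fintype, Nat.card_eq_fintype_card] at h ⊢
  have hC : (0 : ℝ) < Fintype.card C := by exact_mod_cast Fintype.card_pos
  have h1 : ∑ x, ∑ μ, sg (Q μ x) = Fintype.card {x // ∀ μ, Q μ x = 0} * (Fintype.card C : ℝ) := by
    have : ∀ x, ∑ μ, sg (Q μ x) = if ∀ μ, Q μ x = 0 then (Fintype.card C : ℝ) else 0 := fun x => by
      refine (chr ((Pi.evalAddMonoidHom (fun _ => F2) x).comp Q)).trans ?_
      congr 1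
      exact propext DFunLike.ext_iff
    simp only [this]
    rw [← sum_filter, sum_const, nsmul_eq_mul, Fintype.card_subtype]
  rw [sum_comm, ← add_sum_erase _ _ (mem_univ 0)] at h1
  simp only [map_zero, Pi.zero_apply, sg_zero, sum_const, card_univ, nsmul_eq_mul, mul_one] at h1
  have h2 : |∑ μ ∈ univ.erase 0, ∑ x, sg (Q μ x)| ≤ Fintype.card C * (δ * Fintype.card A) := by
    refine (abs_sum_le_sum_abs _ _).trans ((sum_le_sum fun μ hμ => h μ (ne_of_mem_erase hμ)).trans ?_)
    rw [sum_const, nsmul_eq_mul]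
    exact mul_le_mul_of_nonneg_right (by exact_mod_cast card_le_univ _) (by positivity)
  rw [show (Fintype.card {x // ∀ μ, Q μ x = 0} : ℝ) - Fintype.card A / Fintype.card C =
    (∑ μ ∈ univ.erase 0, ∑ x, sg (Q μ x)) / Fintype.card C by field_simp; linarith,
    abs_div, abs_of_pos hC, div_le_iff₀ hC]
  linarith

theorem quad {A Y : Type} [AddCommGroup A] [Fintype A] [AddCommGroup Y] [Fintype Y] (e : Y →+ A)
    (Q : A → F2) (Bf : Y →+ Y →+ F2)
    (h : ∀ x0 x x', Q (x0 + e x + e x') + Q (x0 + e x) + Q (x0 + e x') + Q x0 = Bf x x') :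
    (∑ x, sg (Q x)) ^ 2 * Fintype.card Y ≤ (Fintype.card A : ℝ) ^ 2 * Nat.card Bf.ker := by
  classical
  have hY : (0 : ℝ) < Fintype.card Y := by exact_mod_cast Fintype.card_pos
  have h1 : ∀ x0, (∑ y, sg (Q (x0 + e y))) ^ 2 ≤ Fintype.card Y * (Nat.card Bf.ker : ℝ) := by
    intro x0
    have h2 : ∀ x, ∑ y, sg (Q (x0 + e x)) * sg (Q (x0 + e y)) =
        ∑ y, sg (Q (x0 + e y) + Q x0) * sg (Bf y x) := fun x => by
      rw [← Equiv.sum_comp (Equiv.addRight x)]
      refine sum_congr rfl fun y _ => ?_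
      rw [← sg_add, ← sg_add, ← h x0, Equiv.coe_addRight, map_add, ← add_assoc]
      congr 1
      generalize Q (x0 + e y + e x) = a
      generalize Q (x0 + e y) = b
      generalize Q (x0 + e x) = c
      generalize Q x0 = d
      revert a b c d
      decide
    rw [sq, sum_mul_sum]
    simp only [h2]
    rw [sum_comm]
    simp only [← mul_sum, chr]
    have h3 : (Nat.card Bf.ker : ℝ) = ∑ y, if Bf y = 0 then (1 : ℝ) else 0 := by
      rw [← sum_filter, sum_const, nsmul_eq_mul, mul_one, Nat.card_eq_fintype_card,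
        Fintype.card_subtype]
      simp only [AddMonoidHom.mem_ker]
    rw [h3, mul_sum]
    refine sum_le_sum fun y _ => ?_
    split_ifs
    · nlinarith [sg_le (Q (x0 + e y) + Q x0)]
    · simp
  have h4 : ∑ x0, ∑ y, sg (Q (x0 + e y)) = Fintype.card Y * ∑ x, sg (Q x) := by
    rw [sum_comm]
    have : ∀ y, ∑ x0, sg (Q (x0 + e y)) = ∑ x, sg (Q x) := fun y =>
      Equiv.sum_comp (Equiv.addRight (e y)) fun x => sg (Q x)
    simp only [this, sum_const, card_univ, nsmul_eq_mul]
  have h5 := sq_sum_le_card_mul_sum_sq (s := (univ : Finset A))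
    (f := fun x0 => ∑ y, sg (Q (x0 + e y)))
  have h6 := sum_le_sum fun x0 (_ : x0 ∈ (univ : Finset A)) => h1 x0
  rw [sum_const, card_univ, nsmul_eq_mul] at h6
  rw [h4, card_univ] at h5
  refine le_of_mul_le_mul_left ?_ hY
  have hA : (0 : ℝ) ≤ Fintype.card A := by positivity
  nlinarith [mul_le_mul_of_nonneg_left h6 hA]

theorem two_le {G : Type} [AddCommGroup G] [Finite G] {W W' : AddSubgroup G} (h : W < W') :
    2 * Nat.card W ≤ Nat.card W' := by
  obtain ⟨k, hk⟩ := AddSubgroup.card_dvd_of_le h.le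
  have h1 : 0 < Nat.card W' := Nat.card_pos
  have h2 : k ≠ 1 := by
    rintro rfl
    exact h.ne (AddSubgroup.eq_of_le_of_card_ge h.le (by omega))
  have h3 : k ≠ 0 := by
    rintro rfl
    omega
  rw [hk, mul_comm]
  exact Nat.mul_le_mul_left _ (by omega)

theorem card_le {R V : Type} [AddCommGroup R] [AddCommGroup V] [Finite V] (φ : R →+ V) :
    Nat.card R ≤ Nat.card V * Nat.card φ.ker := by
  rw [AddSubgroup.card_eq_card_quotient_mul_card_addSubgroup φ.ker,
    Nat.card_congr (QuotientAddGroup.quotientKerEquivRange φ).toEquiv]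
  exact Nat.mul_le_mul_right _ (AddSubgroup.card_le_card_addGroup _)

theorem qb (G ι V : Type) [AddCommGroup G] [Finite G] [Fintype ι] [DecidableEq ι] [AddCommGroup V]
    [Finite V] (J : Finset ι) (Q : (ι → G) → F2) (π : G →+ G →+ F2)
    (ρ : (ι → G) →+ (ι → G) →+ F2) (L : (ι → G) →+ V) (hπ : π ≠ 0)
    (hρ : ∀ x x', (∀ l, l ∉ J → x l = 0) → (∀ l, l ∉ J → x' l = 0) → L x = 0 → ρ x x' = 0)
    (hQ : ∀ x0 x x', (∀ l, l ∉ J → x l = 0) → (∀ l, l ∉ J → x' l = 0) →
      Q (x0 + x + x') + Q (x0 + x) + Q (x0 + x') + Q x0 = ∑ l ∈ J, π (x l) (x' l) + ρ x x') :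
    (∑ᶠ x, sg (Q x)) ^ 2 ≤ (Nat.card (ι → G) : ℝ) ^ 2 * Nat.card V / 2 ^ J.card := by
  classical
  have := Fintype.ofFinite G
  let e : (J → G) →+ (ι → G) := AddMonoidHom.mk' (fun y l => if h : l ∈ J then y ⟨l, h⟩ else 0)
    fun a b => funext fun l => by
      simp only [Pi.add_apply]
      split_ifs <;> simp
  have e0 : ∀ y l, l ∉ J → e y l = 0 := fun y l h => dif_neg h
  have e1 : ∀ y (l : J), e y l = y l := fun y l => dif_pos l.2
  let Bf : (J → G) →+ (J → G) →+ F2 := AddMonoidHom.mk'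
    (fun x => AddMonoidHom.mk' (fun x' => ∑ l : J, π (x l) (x' l) + ρ (e x) (e x')) fun a b => by
      simp only [Pi.add_apply, map_add, sum_add_distrib]
      ring) fun a b => AddMonoidHom.ext fun x' => by
      simp only [AddMonoidHom.mk'_apply, AddMonoidHom.add_apply, Pi.add_apply, map_add,
        sum_add_distrib]
      ring
  have hB : ∀ x x', Bf x x' = ∑ l : J, π (x l) (x' l) + ρ (e x) (e x') := fun _ _ => rfl
  have h1 := quad e Q Bf fun x0 x x' => by
    rw [hQ x0 _ _ (e0 x) (e0 x'), hB, ← sum_coe_sort]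
    simp only [e1]
  have h2 := card_le ((L.comp e).comp Bf.ker.subtype)
  have h3 : Nat.card ((L.comp e).comp Bf.ker.subtype).ker ≤ Nat.card (J → π.ker) := by
    refine Nat.card_le_card_of_injective (fun y l => ⟨y.1.1 l, ?_⟩) ?_
    · refine AddMonoidHom.ext fun w => ?_
      have h4 : Bf y.1.1 (Pi.single l w) = 0 := DFunLike.congr_fun y.1.2 _
      rw [hB, hρ (e y.1.1) _ (e0 _) (e0 _) y.2, add_zero, Fintype.sum_eq_single l, Pi.single_eq_same] at h4
      · exact h4
      · intro l' hl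
        rw [Pi.single_eq_of_ne hl, map_zero]
    · intro y y' hy
      exact Subtype.ext (Subtype.ext (funext fun l => congrArg Subtype.val (congrFun hy l)))
  have h5 : 2 * Nat.card π.ker ≤ Nat.card G := by
    have := two_le (W := π.ker) (W' := ⊤)
      (lt_top_iff_ne_top.2 fun h => hπ (AddMonoidHom.ker_eq_top_iff.1 h))
    rwa [AddSubgroup.card_top] at this
  have h6 : Nat.card Bf.ker * 2 ^ J.card ≤ Nat.card V * Fintype.card (J → G) := by
    rw [Nat.card_fun, Nat.card_eq_fintype_card (α := J), Fintype.card_coe] at h3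
    rw [Fintype.card_fun, Fintype.card_coe, ← Nat.card_eq_fintype_card]
    calc Nat.card Bf.ker * 2 ^ J.card ≤ Nat.card V * Nat.card π.ker ^ J.card * 2 ^ J.card :=
          Nat.mul_le_mul_right _ (h2.trans (Nat.mul_le_mul_left _ h3))
      _ = Nat.card V * (2 * Nat.card π.ker) ^ J.card := by ring
      _ ≤ _ := Nat.mul_le_mul_left _ (Nat.pow_le_pow_left h5 _)
  have h7 : (Nat.card Bf.ker : ℝ) * 2 ^ J.card ≤ Nat.card V * Fintype.card (J → G) := by
    exact_mod_cast h6
  have hY : (0 : ℝ) < Fintype.card (J → G) := by exact_mod_cast Fintype.card_pos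
  rw [finsum_eq_sum_of_fintype, Nat.card_eq_fintype_card, le_div_iff₀ (by positivity)]
  refine le_of_mul_le_mul_right ?_ hY
  have h8 : (0 : ℝ) ≤ 2 ^ J.card := by positivity
  have h9 : (0 : ℝ) ≤ (Fintype.card (ι → G) : ℝ) ^ 2 := by positivity
  nlinarith [mul_le_mul_of_nonneg_right h1 h8, mul_le_mul_of_nonneg_left h7 h9]

theorem exd {G : Type} [AddCommGroup G] (h : ∀ x : G, x + x = 0) {x : G} (hx : x ≠ 0) :
    ∃ μ : G →+ F2, μ x = 1 := by
  let : Module (ZMod 2) G := AddCommGroup.zmodModule fun x => by rw [two_nsmul, h]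
  by_contra hc
  refine hx ((Module.forall_dual_apply_eq_zero_iff (ZMod 2) x).1 fun φ => ?_)
  exact (f2 _).resolve_right fun h1 => hc ⟨φ.toAddMonoidHom, h1⟩

theorem soc (Λ G κ κ' : Type) [CommRing Λ] [AddCommGroup G] [Module Λ G] [Fintype κ]
    (st : Λ →+* Λ) (au : Λ →+* F2) (τ : Λ) (N : ℕ) (M : κ' → κ → Λ) (H : LR st au τ N)
    (hM : ∀ y : κ → F2, (∀ i, ∑ j, au (M i j) * y j = 0) → y = 0)
    (x : κ → G) (hx : ∀ i, ∑ j, M i j • x j = 0) : x = 0 := by
  classical
  have h2 : ∀ g : G, g + g = 0 := fun g => by rw [← two_smul Λ, H.two, zero_smul]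
  have key : ∀ y : κ → G, (∀ i, ∑ j, M i j • y j = 0) → τ • y = 0 → y = 0 := by
    intro y hy h0
    have h3 : ∀ (h : Λ) j, h • y j = (au h).val • y j := fun h j => by
      obtain ⟨t, ht⟩ := (H.ker (h - ((au h).val : Λ))).1 (by simp)
      have h4 : τ • y j = 0 := congrFun h0 j
      rw [← Nat.cast_smul_eq_nsmul Λ, ← sub_eq_zero, ← sub_smul, ht, mul_comm, mul_smul, h4,
        smul_zero]
    funext j
    by_contra hj
    obtain ⟨μ, hμ⟩ := exd h2 hj
    have h5 := hM (fun j => μ (y j)) fun i => by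
      have := congrArg μ (hy i)
      simpa [h3] using this
    exact one_ne_zero (hμ.symm.trans (congrFun h5 j))
  have : ∀ n, τ ^ n • x = 0 → x = 0 := by
    intro n
    induction n with
    | zero => simp
    | succ n ih =>
      intro hn
      refine ih (key _ (fun i => ?_) (by rw [← mul_smul, ← pow_succ', hn]))
      simp only [Pi.smul_apply, smul_comm (M i _) (τ ^ n)]
      rw [← smul_sum, hx, smul_zero]
  exact this N (by rw [H.nil, zero_smul])

theorem card_dual {G : Type} [AddCommGroup G] [Finite G] (h : ∀ x : G, x + x = 0) :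
    Nat.card (G →+ F2) = Nat.card G := by
  let : Module (ZMod 2) G := AddCommGroup.zmodModule fun x => by rw [two_nsmul, h]
  classical
  rw [Nat.card_congr (AddMonoidHom.toZModLinearMapEquiv 2).toEquiv]
  exact (Nat.card_congr (Module.Free.chooseBasis (ZMod 2) G).toDualEquiv.toEquiv).symm

theorem dual (G : Type) [AddCommGroup G] [Finite G] (h : ∀ x : G, x + x = 0) (W : AddSubgroup G) :
    Nat.card W * Nat.card {μ : G →+ F2 // ∀ w ∈ W, μ w = 0} = Nat.card G ∧
      ∀ x, (∀ μ : G →+ F2, (∀ w ∈ W, μ w = 0) → μ x = 0) → x ∈ W := by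
  have h1 : ∀ x : G ⧸ W, x + x = 0 := fun x => by
    obtain ⟨x, rfl⟩ := QuotientAddGroup.mk_surjective x
    rw [← QuotientAddGroup.mk_add, h, QuotientAddGroup.mk_zero]
  have h2 : ∀ (ν : G ⧸ W →+ F2), ∀ w ∈ W, ν.comp (QuotientAddGroup.mk' W) w = 0 := fun ν w hw => by
    rw [AddMonoidHom.comp_apply, QuotientAddGroup.mk'_apply, (QuotientAddGroup.eq_zero_iff w).2 hw,
      map_zero]
  refine ⟨?_, fun x hx => ?_⟩
  · rw [AddSubgroup.card_eq_card_quotient_mul_card_addSubgroup W, mul_comm, ← card_dual h1]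
    congr 1
    refine Nat.card_congr ⟨fun μ => QuotientAddGroup.lift W μ.1 μ.2,
      fun ν => ⟨ν.comp (QuotientAddGroup.mk' W), h2 ν⟩, fun μ => rfl, fun ν => ?_⟩
    exact QuotientAddGroup.addMonoidHom_ext _ rfl
  · by_contra hW
    obtain ⟨ν, hν⟩ := exd h1 (x := (x : G ⧸ W)) fun e => hW ((QuotientAddGroup.eq_zero_iff x).1 e)
    exact one_ne_zero (hν.symm.trans (hx _ (h2 ν)))

section Few

variable {Λ G ι : Type} [CommRing Λ] [AddCommGroup G] [Module Λ G] [Finite G] [DecidableEq ι]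

theorem two_le' {W W' : Submodule Λ G} (h : W < W') : 2 * Nat.card W ≤ Nat.card W' :=
  two_le (W := W.toAddSubgroup) (W' := W'.toAddSubgroup) h

theorem gens (x : ι → G) (J : Finset ι) :
    ∃ L ⊆ J, 2 ^ L.card ≤ Nat.card (sp Λ x L) ∧ sp Λ x L = sp Λ x J := by
  induction J using Finset.induction_on with
  | empty => exact ⟨∅, Subset.rfl, Nat.card_pos, rfl⟩
  | insert a J ha ih =>
    obtain ⟨L, h1, h2, h3⟩ := ih
    have h4 : ∀ L : Finset ι, sp Λ x (insert a L) = Submodule.span Λ {x a} ⊔ sp Λ x L := fun L => by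
      rw [sp, coe_insert, Set.image_insert_eq, Submodule.span_insert, sp]
    by_cases h : x a ∈ sp Λ x L
    · refine ⟨L, h1.trans (subset_insert _ _), h2, ?_⟩
      rw [h4, ← h3, sup_eq_right.2 ((Submodule.span_singleton_le_iff_mem _ _).2 h)]
    · refine ⟨insert a L, insert_subset_insert _ h1, ?_, by rw [h4, h4, h3]⟩
      have h5 : sp Λ x L < sp Λ x (insert a L) := by
        rw [h4]
        exact right_lt_sup.2 fun e => h ((Submodule.span_singleton_le_iff_mem _ _).1 e)
      have := two_le' h5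
      rw [card_insert_of_notMem fun e => ha (h1 e), pow_succ]
      omega

theorem gens' {γ : ℕ} (hG : Nat.card G = 2 ^ γ) (x : ι → G) (J : Finset ι) :
    ∃ L ⊆ J, L.card ≤ γ ∧ sp Λ x L = sp Λ x J := by
  obtain ⟨L, h1, h2, h3⟩ := gens (Λ := Λ) x J
  refine ⟨L, h1, (Nat.pow_le_pow_iff_right one_lt_two).1 (h2.trans ?_), h3⟩
  rw [← hG]
  exact Finite.card_subtype_le _

theorem few {γ : ℕ} (hG : Nat.card G = 2 ^ γ) : Nat.card (Submodule Λ G) ≤ 2 ^ (γ * γ) := by
  classical
  have h1 : Function.Surjective fun f : Fin γ → G => Submodule.span Λ (Set.range f) := by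
    intro W
    obtain ⟨L, h1, h2, h3⟩ := gens' (Λ := Λ) hG id (Set.toFinite (W : Set G)).toFinset
    simp only [sp, Set.image_id, Set.Finite.coe_toFinset, Submodule.span_eq] at h3
    obtain ⟨e⟩ := Function.Embedding.nonempty_of_card_le (α := L) (β := Fin γ) (by simpa using h2)
    refine ⟨Function.extend e Subtype.val 0, le_antisymm (Submodule.span_le.2 ?_) ?_⟩
    · rintro _ ⟨i, rfl⟩
      by_cases h : ∃ a, e a = i
      · obtain ⟨a, rfl⟩ := h
        rw [e.injective.extend_apply]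
        simpa using h1 a.2
      · rw [Function.extend_apply' _ _ _ h]
        exact W.zero_mem
    · rw [← h3]
      exact Submodule.span_mono fun a ha => ⟨e ⟨a, ha⟩, e.injective.extend_apply _ _ _⟩
  have := Nat.card_le_card_of_surjective _ h1
  rwa [Nat.card_fun, hG, Nat.card_eq_fintype_card (α := Fin γ), Fintype.card_fin,
    ← pow_mul] at this

end Few

end QF

theorem rowQF : SQF where
  qc := QF.qc
  lin := fun A _ _ Q v h => by
    have := Fintype.ofFinite A
    rw [finsum_eq_sum_of_fintype, QF.lin Q v h]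
  qb := QF.qb
  soc := QF.soc
  dual := fun G _ _ h => ⟨QF.card_dual h, fun _ hx => QF.exd h hx, QF.dual G h⟩
  few := fun _ _ _ _ _ _ _ _ _ hG => ⟨QF.few hG, fun _ _ => QF.two_le', QF.gens' hG⟩

end Pool.Agent.MP_1246c0_nt.H12
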